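import Mathlib
import Pool.Agent.R243.ZM.Fin

/-!
# MP_03af15_an: the largest zero modulus for the class `U_n` is `a + n - 1`
-/

namespace Pool.Agent.Results.MP_03af15_an.LargestZeroModulus

open Polynomial

/-- The Pochhammer symbol `(a)_k = a (a+1) ... (a+k-1)`. -/
noncomputable def poch (a : ℝ) (k : ℕ) : ℝ := ∏ j ∈ Finset.range k, (a + j)

/-- The basis polynomial `e_k(x) = x(x-1)...(x-k+1)/(a)_k`. -/
noncomputable def e (a : ℝ) (k : ℕ) : ℝ[X] :=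
  C (poch a k)⁻¹ * ∏ j ∈ Finset.range k, (X - C (j : ℝ))

/-- `L` is the linear map `L_a` of the problem: it sends `e_k` to `x^k` for every `k`. -/
def IsLa (a : ℝ) (L : ℝ[X] →ₗ[ℝ] ℝ[X]) : Prop := ∀ k : ℕ, L (e a k) = X ^ k

/-- The class `U_n` (for the linear map `L`): real polynomials `P` of degree exactly `n` such that
every complex zero of `L P` is real and lies in `[-1, 0]`. -/
def U (L : ℝ[X] →ₗ[ℝ] ℝ[X]) (n : ℕ) : Set ℝ[X] :=
  {P | P.degree = (n : WithBot ℕ) ∧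
    ∀ z : ℂ, aeval z (L P) = 0 → z.im = 0 ∧ -1 ≤ z.re ∧ z.re ≤ 0}

/-- `R_n`: the supremum, in `[0, ∞]`, over `P ∈ U_n` of the moduli of the complex zeros of `P`. -/
noncomputable def R (L : ℝ[X] →ₗ[ℝ] ℝ[X]) (n : ℕ) : ENNReal :=
  ⨆ P ∈ U L n, ⨆ z ∈ {z : ℂ | aeval z P = 0}, ENNReal.ofReal ‖z‖

/-- For every `a > 0` the map `L_a` exists and is unique, and `R_n = a + n - 1` for every `n ≥ 1`;
the supremum is attained. -/
theorem result : ∀ a : ℝ, 0 < a →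
    (∃! L : ℝ[X] →ₗ[ℝ] ℝ[X], IsLa a L) ∧
    ∀ L : ℝ[X] →ₗ[ℝ] ℝ[X], IsLa a L → ∀ n : ℕ, 1 ≤ n →
      R L n = ENNReal.ofReal (a + n - 1) ∧
      ∃ P ∈ U L n, ∃ z : ℂ, aeval z P = 0 ∧ ‖z‖ = a + n - 1 := by
  intro a ha
  refine ⟨R243.ZM.exists_L ha, ?_⟩
  intro L hL n hn
  obtain ⟨N, rfl⟩ : ∃ N, n = N + 1 := ⟨n - 1, by omega⟩
  obtain ⟨P, hP1, hP2, x, hx1, hx2⟩ := R243.ZM.attained ha hL N
  have hval : a + ((N + 1 : ℕ) : ℝ) - 1 = a + N := by push_cast; ring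
  rw [hval]
  refine ⟨?_, P, ⟨hP1, hP2⟩, x, hx1, hx2⟩
  apply le_antisymm
  · apply iSup₂_le
    intro P hP
    apply iSup₂_le
    intro z hz
    exact ENNReal.ofReal_le_ofReal (R243.ZM.upper ha hL hP.1 hP.2 hz)
  · refine le_trans (le_of_eq ?_) (le_iSup₂_of_le P ⟨hP1, hP2⟩ (le_iSup₂_of_le x hx1 le_rfl))
    rw [hx2]

end Pool.Agent.Results.MP_03af15_an.LargestZeroModulus
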